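import Pool.Agent.Lib.MP_009d13_co.OD.RES
import Pool.Agent.Lib.MP_009d13_co.OL.OL11

/-!
# The maximum number of paths with `2 ℓ + 1` edges in a planar graph, `ℓ` large

The formula `f(n, P_{2ℓ+1}) = 8 ℓ (ℓ + 1) (n / ℓ)^(ℓ+1) + O(n^ℓ)` for every `ℓ ≥ 10^40`, both bounds.
Planar graphs are the finite graphs without a minor `K_5` or `K_{3,3}` (Wagner's theorem);
`copyCount` is Mathlib's number of subgraphs isomorphic to a given graph, `pathGraph (k + 1)` is the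
path with `k` edges.
-/

set_option autoImplicit false

namespace Pool.Agent.Results.MP_009d13_co.LargeOddPaths

open Pool.Agent.Lib.MP_009d13_co

/-- `f(n, P_k)`: the maximum, over all planar graphs `G` on `n` vertices, of the number of
subgraphs of `G` isomorphic to the path `P_k` with `k` edges. -/
noncomputable def f (n k : ℕ) : ℕ :=
  sSup {m : ℕ | ∃ G : SimpleGraph (Fin n), P5.IsPlanar G ∧
    G.copyCount (SimpleGraph.pathGraph (k + 1)) = m}

/-- The formula `f(n, P_{2ℓ+1}) = 8 ℓ (ℓ + 1) (n / ℓ)^(ℓ+1) + O(n^ℓ)` for every `ℓ ≥ 10^40`. -/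
theorem result : ∀ l : ℕ, 10 ^ 40 ≤ l → ∃ C : ℝ, ∀ n : ℕ,
    |(f n (2 * l + 1) : ℝ) - 8 * l * (l + 1) * ((n : ℝ) / l) ^ (l + 1)| ≤ C * (n : ℝ) ^ l := by
  intro l hl
  have hl3 : 3 ≤ l := le_trans (by norm_num) hl
  have hl0 : (0 : ℝ) < l := by
    have : 0 < l := by omega
    exact_mod_cast this
  obtain ⟨K, hK⟩ := OD.upper hl
  obtain ⟨K', hK'⟩ := OL.lower hl3
  refine ⟨max (max K K') (8 * l * (l + 1)), fun n => ?_⟩
  set M : ℝ := max (max K K') (8 * l * (l + 1)) with hM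
  have hn : (0 : ℝ) ≤ (n : ℝ) ^ l := by positivity
  have hMK : K * (n : ℝ) ^ l ≤ M * (n : ℝ) ^ l :=
    mul_le_mul_of_nonneg_right ((le_max_left _ _).trans (le_max_left _ _)) hn
  have hMK' : K' * (n : ℝ) ^ l ≤ M * (n : ℝ) ^ l :=
    mul_le_mul_of_nonneg_right ((le_max_right _ _).trans (le_max_left _ _)) hn
  have hMl : (8 * l * (l + 1) : ℝ) * (n : ℝ) ^ l ≤ M * (n : ℝ) ^ l :=
    mul_le_mul_of_nonneg_right (le_max_right _ _) hn
  have hM0 : 0 ≤ M := le_trans (by positivity) (le_max_right (max K K') (8 * l * (l + 1) : ℝ))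
  have hT : (0 : ℝ) ≤ 8 * l * (l + 1) * ((n : ℝ) / l) ^ (l + 1) := by positivity
  have hub : ∀ m ∈ {m : ℕ | ∃ G : SimpleGraph (Fin n), P5.IsPlanar G ∧
      G.copyCount (SimpleGraph.pathGraph (2 * l + 1 + 1)) = m},
      m ≤ ⌊8 * l * (l + 1) * ((n : ℝ) / l) ^ (l + 1) + M * (n : ℝ) ^ l⌋₊ := by
    rintro m ⟨G, hG, rfl⟩
    apply Nat.le_floor
    have h1 := hK (Fin n) G hG
    rw [Fintype.card_fin] at h1
    linarith
  have hup : (f n (2 * l + 1) : ℝ) ≤ 8 * l * (l + 1) * ((n : ℝ) / l) ^ (l + 1)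
      + M * (n : ℝ) ^ l := by
    have h2 : f n (2 * l + 1) ≤ ⌊8 * l * (l + 1) * ((n : ℝ) / l) ^ (l + 1)
        + M * (n : ℝ) ^ l⌋₊ := csSup_le' (fun m hm => hub m hm)
    exact (Nat.cast_le.2 h2).trans (Nat.floor_le (by positivity))
  have hlow : 8 * l * (l + 1) * ((n : ℝ) / l) ^ (l + 1) - M * (n : ℝ) ^ l
      ≤ (f n (2 * l + 1) : ℝ) := by
    by_cases hnl : l < n
    · obtain ⟨G, hG, h1⟩ := hK' n hnl
      have h2 : G.copyCount (SimpleGraph.pathGraph (2 * l + 1 + 1)) ≤ f n (2 * l + 1) :=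
        le_csSup ⟨_, fun m hm => hub m hm⟩ ⟨G, hG, rfl⟩
      have h3 : (G.copyCount (SimpleGraph.pathGraph (2 * l + 2)) : ℝ) ≤ (f n (2 * l + 1) : ℝ) := by
        exact_mod_cast h2
      linarith
    · have h1 : ((n : ℝ) / l) ^ (l + 1) ≤ (n : ℝ) ^ l := by
        have hnl' : (n : ℝ) ≤ l := by
          have : n ≤ l := by omega
          exact_mod_cast this
        have h2 : (n : ℝ) / l ≤ 1 := (div_le_one hl0).2 hnl'
        have h3 : (0 : ℝ) ≤ (n : ℝ) / l := by positivity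
        have h4 : (n : ℝ) / l ≤ n := by
          apply div_le_self (by positivity)
          have : 1 ≤ l := by omega
          exact_mod_cast this
        calc ((n : ℝ) / l) ^ (l + 1) = ((n : ℝ) / l) ^ l * ((n : ℝ) / l) := pow_succ _ _
          _ ≤ ((n : ℝ) / l) ^ l * 1 := by gcongr
          _ ≤ (n : ℝ) ^ l := by rw [mul_one]; gcongr
      have h5 : 8 * l * (l + 1) * ((n : ℝ) / l) ^ (l + 1) ≤ M * (n : ℝ) ^ l := by
        refine le_trans ?_ hMl
        gcongr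
      have h6 : (0 : ℝ) ≤ (f n (2 * l + 1) : ℝ) := Nat.cast_nonneg _
      linarith
  rw [abs_le]
  constructor <;> linarith

end Pool.Agent.Results.MP_009d13_co.LargeOddPaths
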