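import Pool.Agent.Lib.MP_009d13_co.SP.Two
import Pool.Agent.Lib.MP_009d13_co.SP.Two2
import Pool.Agent.Lib.MP_009d13_co.FL.Cert3
import Pool.Agent.Lib.MP_009d13_co.FL.Cert4
import Pool.Agent.Lib.MP_009d13_co.FL.Cert5
import Pool.Agent.Lib.MP_009d13_co.FL.Cert6
import Pool.Agent.Lib.MP_009d13_co.FL.Cert7

/-!
# The maximum number of paths with `2 ℓ + 1` edges in a planar graph, `2 ≤ ℓ ≤ 7`

The formula `f(n, P_{2ℓ+1}) = 8 ℓ (ℓ + 1) (n / ℓ)^(ℓ+1) + O(n^ℓ)` for `ℓ = 2, 3, 4, 5, 6, 7`, both bounds.
Planar graphs are the finite graphs without a minor `K_5` or `K_{3,3}` (Wagner's theorem);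
`copyCount` is Mathlib's number of subgraphs isomorphic to a given graph, `pathGraph (k + 1)` is the
path with `k` edges.

Proof of the upper bound for `ℓ ≥ 3`. The vertices of small degree are contracted into classes between
hubs, which gives a polynomial inequality of degree `ℓ + 1` for the sizes `μ a b` of the classes
(total mass `S`). It is proved by a certificate: `8 ℓ (ℓ + 1) (S / ℓ)^(ℓ+1)` minus the functional is a
sum over the multigraphs `τ` with `ℓ - 1` edges of `μ^τ` times a positive semidefinite quadratic form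
in the masses seen from `τ`, plus a combination with coefficients `≥ 0` of the multigraphs with
`ℓ + 1` edges; this is checked by the kernel. The coefficients of the multigraphs with more than `ℓ`
vertices are positive, so near equality forces a ring of `ℓ` hubs, and graphs near the ring are
treated directly (for every `ℓ ≥ 3`).
-/

set_option autoImplicit false

namespace Pool.Agent.Results.MP_009d13_co.SmallOddPaths

open Pool.Agent.Lib.MP_009d13_co

/-- `f(n, P_k)`: the maximum, over all planar graphs `G` on `n` vertices, of the number of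
subgraphs of `G` isomorphic to the path `P_k` with `k` edges. -/
noncomputable def f (n k : ℕ) : ℕ :=
  sSup {m : ℕ | ∃ G : SimpleGraph (Fin n), P5.IsPlanar G ∧
    G.copyCount (SimpleGraph.pathGraph (k + 1)) = m}

/-- The formula `f(n, P_{2ℓ+1}) = 8 ℓ (ℓ + 1) (n / ℓ)^(ℓ+1) + O(n^ℓ)` for `2 ≤ ℓ ≤ 7`. -/
theorem result : ∀ l : ℕ, 2 ≤ l → l ≤ 7 → ∃ C : ℝ, ∀ n : ℕ,
    |(f n (2 * l + 1) : ℝ) - 8 * l * (l + 1) * ((n : ℝ) / l) ^ (l + 1)| ≤ C * (n : ℝ) ^ l := by
  intro l hl2 hl7
  unfold f
  interval_cases l
  · exact SP.two_two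
  · exact SP.two_of_cert (by norm_num) FL.cert3
  · exact SP.two_of_cert (by norm_num) FL.cert4
  · exact SP.two_of_cert (by norm_num) FL.cert5
  · exact SP.two_of_cert (by norm_num) FL.cert6
  · exact SP.two_of_cert (by norm_num) FL.cert7

end Pool.Agent.Results.MP_009d13_co.SmallOddPaths
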